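import Pool.Agent.helper67.GV.Spec

/-!
# gv:BDD (MP_89787e_co)
-/

set_option autoImplicit false

open Finset Filter Topology

namespace Pool.Agent.helper67.GV

open Pool.Agent.helper21.GR

theorem BDD : BDD_stmt := by
  classical
  intro K _ cap
  rcases isEmpty_or_nonempty K with hK | hK
  · refine ⟨0, fun n hn => ?_⟩
    obtain ⟨c, -, -⟩ := hn
    by_contra hcon
    have hpos : 0 < n := by omega
    exact hK.elim (c ⟨0, hpos⟩ ⟨0, hpos⟩)
  · let e : K ≃ Fin (Fintype.card K) := Fintype.equivFin K
    have hk : 1 ≤ Fintype.card K := Fintype.card_pos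
    let t : ℕ := (∑ i, cap i) + 3
    let B : ℝ := (Cst * ((sInf (RSet t) - 1 : ℕ) : ℝ)) ^ (Fintype.card K)
    refine ⟨⌈B⌉₊, fun n hn => ?_⟩
    obtain ⟨c, hc, hb⟩ := hn
    have key : (n : ℝ) ^ 2 ≤ B := by
      refine main_sq (t := t) hk (by show 3 ≤ (∑ i, cap i) + 3; omega)
        (fun a b => e (c a b)) (fun a b => ?_) (fun u v w h1 h2 h3 => ?_) ?_
      · show e (c a b) = e (c b a)
        rw [hc.1 a b]
      · show e (c u v) = e (c v w) ∨ e (c v w) = e (c u w) ∨ e (c u v) = e (c u w)
        rcases hc.2 u v w h1 h2 h3 with h | h | h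
        · exact Or.inl (by rw [h])
        · exact Or.inr (Or.inl (by rw [h]))
        · exact Or.inr (Or.inr (by rw [h]))
      · rintro ⟨S, hS, i, hi⟩
        have h1 := hb (e.symm i) S (subset_univ S) (fun u hu v hv huv => by
          have := hi u hu v hv huv
          show c u v = e.symm i
          rw [← this, Equiv.symm_apply_apply])
        rw [sum_const, smul_eq_mul, mul_one, hS] at h1
        have h2 : cap (e.symm i) ≤ ∑ l, cap l := single_le_sum (fun _ _ => Nat.zero_le _) (mem_univ _)
        have h3 : t = (∑ l, cap l) + 3 := rfl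
        omega
    have h4 : (n : ℝ) ≤ B := by
      rcases Nat.eq_zero_or_pos n with h0 | hpos
      · subst h0
        have : (0 : ℝ) ≤ ((0 : ℕ) : ℝ) ^ 2 := by positivity
        push_cast at key ⊢
        linarith
      · have h5 : (1 : ℝ) ≤ n := by exact_mod_cast hpos
        nlinarith
    have h6 : (n : ℝ) ≤ (⌈B⌉₊ : ℝ) := h4.trans (Nat.le_ceil B)
    exact_mod_cast h6

end Pool.Agent.helper67.GV
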