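import Pool.Agent.helper67.GV.Spec

/-!
# gv:JEN (MP_89787e_co)
-/

set_option autoImplicit false

open Finset Filter Topology

namespace Pool.Agent.helper67.GV

open Pool.Agent.helper21.GR

theorem JEN : JEN_stmt := by
  intro n h l h' hn hh
  set Z : ℝ := ∑ v, Real.exp (l v) with hZ
  have hne : (univ : Finset (Fin n)).Nonempty := ⟨⟨0, hn⟩, mem_univ _⟩
  have hZpos : 0 < Z := sum_pos (fun v _ => Real.exp_pos _) hne
  have h1 : ∀ v, Real.exp (l v) * (1 + (h v - l v - (h' - Real.log Z))) ≤
      Real.exp (h v) * (Real.exp (-h') * Z) := by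
    intro v
    have e1 : Real.exp (h v) * (Real.exp (-h') * Z) =
        Real.exp (l v) * Real.exp (h v - l v - (h' - Real.log Z)) := by
      have e2 : Real.exp (h v - l v - (h' - Real.log Z)) =
          Real.exp (h v) * Real.exp (-(l v)) * (Real.exp (-h') * Z) := by
        rw [show h v - l v - (h' - Real.log Z) = h v + -(l v) + (-h' + Real.log Z) by ring,
          Real.exp_add, Real.exp_add, Real.exp_add, Real.exp_log hZpos]
      rw [e2, show Real.exp (l v) * (Real.exp (h v) * Real.exp (-(l v)) * (Real.exp (-h') * Z)) =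
        (Real.exp (l v) * Real.exp (-(l v))) * (Real.exp (h v) * (Real.exp (-h') * Z)) by ring,
        ← Real.exp_add, add_neg_cancel, Real.exp_zero, one_mul]
    rw [e1]
    apply mul_le_mul_of_nonneg_left _ (Real.exp_pos _).le
    have := Real.add_one_le_exp (h v - l v - (h' - Real.log Z))
    linarith
  have h2 := sum_le_sum (fun v (_ : v ∈ (univ : Finset (Fin n))) => h1 v)
  rw [← sum_mul] at h2
  have h3 : (∑ v, Real.exp (h v)) * (Real.exp (-h') * Z) ≤ Z := by
    calc (∑ v, Real.exp (h v)) * (Real.exp (-h') * Z) ≤ Real.exp h' * (Real.exp (-h') * Z) :=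
          mul_le_mul_of_nonneg_right hh (by positivity)
      _ = (Real.exp h' * Real.exp (-h')) * Z := by ring
      _ = Z := by rw [← Real.exp_add, add_neg_cancel, Real.exp_zero, one_mul]
  have h4 : ∑ v, Real.exp (l v) * (1 + (h v - l v - (h' - Real.log Z))) =
      Z + ∑ v, Real.exp (l v) * (h v - l v) - Z * (h' - Real.log Z) := by
    have e1 : ∀ v, Real.exp (l v) * (1 + (h v - l v - (h' - Real.log Z))) =
        Real.exp (l v) + Real.exp (l v) * (h v - l v) - Real.exp (l v) * (h' - Real.log Z) := by
      intro v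
      ring
    rw [sum_congr rfl (fun v _ => e1 v), sum_sub_distrib, sum_add_distrib, ← sum_mul, ← hZ]
  have h5 := h2.trans h3
  rw [h4] at h5
  nlinarith [h5]

end Pool.Agent.helper67.GV
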