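import Pool.Agent.helper67.GV.Spec

/-!
# gv:SB2 (MP_89787e_co)
-/

set_option autoImplicit false

open Finset Filter Topology

namespace Pool.Agent.helper67.GV

open Pool.Agent.helper21.GR

theorem SB2 (hLEX : LEX_stmt) : SB2_stmt := by
  classical
  intro K _ _ cap V _ i j r hij hr S x y hx hy
  refine hLEX K V (fun u v => if r u v then i else j) ?_ S
    (fun v => Function.update (Function.update cap i (x v)) j (y v)) cap ?_
  · constructor
    · intro u v
      by_cases h : r u v
      · rw [if_pos h, if_pos (hr u v h)]
      · rw [if_neg h, if_neg (fun h' => h (hr v u h'))]
    · intro u v w _ _ _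
      by_cases h1 : r u v <;> by_cases h2 : r v w <;> by_cases h3 : r u w <;> simp [h1, h2, h3]
  · intro l Q hQ hc
    by_cases hli : l = i
    · subst hli
      have e1 : ∀ v ∈ Q, Function.update (Function.update cap l (x v)) j (y v) l = x v := by
        intro v _
        rw [Function.update_of_ne hij, Function.update_self]
      show ∑ v ∈ Q, Function.update (Function.update cap l (x v)) j (y v) l ≤ cap l
      rw [sum_congr rfl e1]
      refine hx Q hQ (fun u hu v hv huv => ?_)
      by_contra hn
      have h1 : (if r u v then l else j) = l := hc u hu v hv huv
      rw [if_neg hn] at h1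
      exact hij h1.symm
    · by_cases hlj : l = j
      · subst hlj
        have e1 : ∀ v ∈ Q, Function.update (Function.update cap i (x v)) l (y v) l = y v := by
          intro v _
          rw [Function.update_self]
        show ∑ v ∈ Q, Function.update (Function.update cap i (x v)) l (y v) l ≤ cap l
        rw [sum_congr rfl e1]
        refine hy Q hQ (fun u hu v hv huv => ?_)
        intro hn
        have h1 : (if r u v then i else l) = l := hc u hu v hv huv
        rw [if_pos hn] at h1
        exact hij h1
      · have e1 : ∀ v ∈ Q, Function.update (Function.update cap i (x v)) j (y v) l = cap l := by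
          intro v _
          rw [Function.update_of_ne hlj, Function.update_of_ne hli]
        show ∑ v ∈ Q, Function.update (Function.update cap i (x v)) j (y v) l ≤ cap l
        rw [sum_congr rfl e1, sum_const, smul_eq_mul]
        have hcard : Q.card ≤ 1 := by
          by_contra hcon
          obtain ⟨a, ha, b, hb, hab⟩ := Finset.one_lt_card.1 (by omega : 1 < Q.card)
          have h1 : (if r a b then i else j) = l := hc a ha b hb hab
          by_cases hrab : r a b
          · rw [if_pos hrab] at h1
            exact hli h1.symm
          · rw [if_neg hrab] at h1
            exact hlj h1.symm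
        calc Q.card * cap l ≤ 1 * cap l := Nat.mul_le_mul_right _ hcard
          _ = cap l := one_mul _

end Pool.Agent.helper67.GV
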